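import Pool.Agent.helper62.MS.SpecA
import Pool.Agent.helper97.RS.CV1

/-!
# Row ms:OSC (MP_07c750): the kernel between narrow and wide packets
-/

set_option autoImplicit false

open scoped MatrixGroups ContDiff Topology UpperHalfPlane ComplexConjugate
open UpperHalfPlane MeasureTheory Filter Set

namespace Pool.Agent.MS

open Pool.Agent.RS

theorem OSC_zero {β : ℝ → ℝ} (h : SB (1 / 4) β) {x : ℝ} (hx : 1 / 4 ≤ |x|) : β x = 0 := by
  by_contra hne
  have hsub : {y | β y ≠ 0} ⊆ Icc (-(1 / 4) : ℝ) (1 / 4) := by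
    intro y hy
    exact abs_le.1 (h.2 y hy)
  have hopen : IsOpen {y | β y ≠ 0} := isOpen_ne_fun h.1.continuous continuous_const
  have hint := (hopen.subset_interior_iff.2 hsub) hne
  rw [interior_Icc] at hint
  exact absurd hx (not_le.2 (abs_lt.2 hint))

theorem OSC_dSB {β : ℝ → ℝ} (h : SB (1 / 4) β) : SB (1 / 4) (deriv β) := by
  refine ⟨(contDiff_infty_iff_deriv.1 h.1).2, fun x hx => ?_⟩
  by_contra hlt
  push Not at hlt
  refine hx ?_
  have he : β =ᶠ[𝓝 x] fun _ => 0 := by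
    filter_upwards [(continuous_abs.isOpen_preimage _ isOpen_Ioi).mem_nhds (show x ∈ (fun y : ℝ => |y|) ⁻¹' Ioi (1 / 4) from hlt)] with y hy
    exact OSC_zero h (le_of_lt hy)
  rw [he.deriv_eq]
  simp

theorem OSC_bd {β : ℝ → ℝ} (h : SB (1 / 4) β) : ∃ B : ℝ, 0 ≤ B ∧ ∀ x, |β x| ≤ B := by
  obtain ⟨B, hB⟩ := (isCompact_Icc (a := (-(1 / 4) : ℝ)) (b := 1 / 4)).exists_bound_of_continuousOn h.1.continuous.continuousOn
  refine ⟨max B 0, le_max_right _ _, fun x => ?_⟩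
  by_cases hx : |x| ≤ 1 / 4
  · exact (hB x (abs_le.1 hx)).trans (le_max_left _ _)
  · rw [OSC_zero h (le_of_lt (not_le.1 hx)), abs_zero]
    exact le_max_right _ _

/-- common bounds for a bump and its derivatives -/
theorem OSC_bds {β : ℝ → ℝ} (h : SB (1 / 4) β) : ∃ B : ℝ, 0 ≤ B ∧ ∀ x, |β x| ≤ B ∧ |deriv β x| ≤ B ∧ |deriv (deriv β) x| ≤ B := by
  obtain ⟨B0, p0, h0⟩ := OSC_bd h
  obtain ⟨B1, p1, h1⟩ := OSC_bd (OSC_dSB h)
  obtain ⟨B2, p2, h2⟩ := OSC_bd (OSC_dSB (OSC_dSB h))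
  refine ⟨B0 + B1 + B2, by positivity, fun x => ⟨?_, ?_, ?_⟩⟩
  · linarith [h0 x]
  · linarith [h1 x]
  · linarith [h2 x]

/-- the amplitude and its derivative -/
theorem OSC_D {u : ℝ → ℝ} {g : ℝ → ℂ} (hu : Differentiable ℝ u) (hg : Differentiable ℝ g) (κ s x : ℝ) :
    HasDerivAt (fun x => ((u x * κ : ℝ) : ℂ) * g (s * x))
      (((deriv u x * κ : ℝ) : ℂ) * g (s * x) + (s : ℂ) * (((u x * κ : ℝ) : ℂ) * deriv g (s * x))) x := by
  have h1 : HasDerivAt (fun x => ((u x * κ : ℝ) : ℂ)) ((deriv u x * κ : ℝ) : ℂ) x :=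
    ((hu x).hasDerivAt.mul_const κ).ofReal_comp
  have h2 : HasDerivAt (fun x : ℝ => s * x) s x := by
    simpa using (hasDerivAt_id x).const_mul s
  have h3 : HasDerivAt (fun x => g (s * x)) (s • deriv g (s * x)) x := HasDerivAt.scomp x (hg (s * x)).hasDerivAt h2
  refine (h1.mul h3).congr_deriv ?_
  rw [Complex.real_smul]
  ring

theorem OSC_W (hOI2 : OI2_stmt) {u : ℝ → ℝ} (hu : SB (1 / 4) u) {B : ℝ} (hB : 0 ≤ B) (hub : ∀ x, |u x| ≤ B ∧ |deriv u x| ≤ B ∧ |deriv (deriv u) x| ≤ B)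
    {κ s r M m L : ℝ} (hκ : |κ| ≤ B) (hs0 : 0 ≤ s) (hs1 : s ≤ 1) (hr : 0 ≤ r)
    {g : ℝ → ℂ} (hg : ContDiff ℝ ∞ g) {h : ℝ → ℝ} (hh : ContDiff ℝ ∞ h) (hM : 0 ≤ M)
    (hgb : ∀ y, |y| ≤ 1 / 4 → ‖g y‖ ≤ M ∧ ‖deriv g y‖ ≤ M ∧ ‖iteratedDeriv 2 g y‖ ≤ M) (hm : 0 < m) (hL : 0 ≤ L)
    (hhb : ∀ y, |y| ≤ 1 / 4 → m ≤ |r * s * deriv h y| ∧ r * s * |iteratedDeriv 2 h y| ≤ L * m ∧ r * s * |iteratedDeriv 3 h y| ≤ L * m) :
    ‖∫ x in (-(1 / 4) : ℝ)..(1 / 4), ((u x * κ : ℝ) : ℂ) * g (s * x) * Complex.exp (((r * h (s * x) : ℝ) : ℂ) * Complex.I)‖ ≤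
      8 * B ^ 2 * M * (1 + L) ^ 2 / m ^ 2 := by
  have hud := OSC_dSB hu
  have hudd := OSC_dSB hud
  have du : Differentiable ℝ u := hu.1.differentiable (by simp)
  have du' : Differentiable ℝ (deriv u) := hud.1.differentiable (by simp)
  have hg' : ContDiff ℝ ∞ (deriv g) := (contDiff_infty_iff_deriv.1 hg).2
  have dg : Differentiable ℝ g := hg.differentiable (by simp)
  have dg' : Differentiable ℝ (deriv g) := hg'.differentiable (by simp)
  have e1 : deriv (fun x => ((u x * κ : ℝ) : ℂ) * g (s * x)) = fun x => ((deriv u x * κ : ℝ) : ℂ) * g (s * x) +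
      (s : ℂ) * (((u x * κ : ℝ) : ℂ) * deriv g (s * x)) := funext fun x => (OSC_D du dg κ s x).deriv
  have e2 : iteratedDeriv 2 (fun x => ((u x * κ : ℝ) : ℂ) * g (s * x)) = fun x =>
      (((deriv (deriv u) x * κ : ℝ) : ℂ) * g (s * x) + (s : ℂ) * (((deriv u x * κ : ℝ) : ℂ) * deriv g (s * x))) +
      (s : ℂ) * (((deriv u x * κ : ℝ) : ℂ) * deriv g (s * x) + (s : ℂ) * (((u x * κ : ℝ) : ℂ) * iteratedDeriv 2 g (s * x))) := by
    rw [iteratedDeriv_succ, iteratedDeriv_one, e1]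
    funext x
    have h1 := OSC_D du' dg κ s x
    have h2 := (OSC_D du dg' κ s x).const_mul (s : ℂ)
    have e3 : deriv (deriv g) = iteratedDeriv 2 g := by rw [iteratedDeriv_succ, iteratedDeriv_one]
    rw [e3] at h2
    exact (h1.add h2).deriv
  have hsx : ∀ x : ℝ, |x| ≤ 1 / 4 → |s * x| ≤ 1 / 4 := by
    intro x hx
    rw [abs_mul, abs_of_nonneg hs0]
    calc s * |x| ≤ 1 * |x| := mul_le_mul_of_nonneg_right hs1 (abs_nonneg _)
      _ ≤ 1 / 4 := by linarith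
  have nb : ∀ (v w : ℝ) (z : ℂ), |v| ≤ B → |w| ≤ B → ‖z‖ ≤ M → ‖((v * w : ℝ) : ℂ) * z‖ ≤ B ^ 2 * M := by
    intro v w z hv hw hz
    rw [norm_mul, Complex.norm_real, Real.norm_eq_abs, abs_mul]
    calc |v| * |w| * ‖z‖ ≤ B * B * M := by gcongr
      _ = B ^ 2 * M := by ring
  have ns : ∀ z : ℂ, ‖(s : ℂ) * z‖ ≤ ‖z‖ := by
    intro z
    rw [norm_mul, Complex.norm_real, Real.norm_eq_abs, abs_of_nonneg hs0]
    exact mul_le_of_le_one_left (norm_nonneg _) hs1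
  have hBM : 0 ≤ B ^ 2 * M := by positivity
  have main := hOI2 (fun x => ((u x * κ : ℝ) : ℂ) * g (s * x)) (fun x => r * h (s * x)) (-(1 / 4)) (1 / 4) m (4 * (B ^ 2 * M)) L (by norm_num)
    ?_ ?_ ?_ ?_ ?_ ?_ hm hL ?_ ?_ ?_ ?_ ?_ ?_
  · refine main.trans (le_of_eq ?_)
    ring
  · have h1 : ContDiff ℝ ∞ (fun x => ((u x * κ : ℝ) : ℂ)) := Complex.ofRealCLM.contDiff.comp (hu.1.mul contDiff_const)
    exact contDiff_infty.1 (h1.mul (hg.comp (contDiff_const.mul contDiff_id))) 2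
  · exact contDiff_infty.1 (contDiff_const.mul (hh.comp (contDiff_const.mul contDiff_id))) 3
  · show ((u (-(1 / 4)) * κ : ℝ) : ℂ) * g (s * (-(1 / 4))) = 0
    rw [OSC_zero hu (by rw [abs_neg, abs_of_pos (by norm_num : (0 : ℝ) < 1 / 4)])]
    simp
  · show ((u (1 / 4) * κ : ℝ) : ℂ) * g (s * (1 / 4)) = 0
    rw [OSC_zero hu (by rw [abs_of_pos (by norm_num : (0 : ℝ) < 1 / 4)])]
    simp
  · rw [e1]
    show ((deriv u (-(1 / 4)) * κ : ℝ) : ℂ) * g (s * (-(1 / 4))) + (s : ℂ) * (((u (-(1 / 4)) * κ : ℝ) : ℂ) * deriv g (s * (-(1 / 4)))) = 0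
    rw [OSC_zero hu (by rw [abs_neg, abs_of_pos (by norm_num : (0 : ℝ) < 1 / 4)]),
      OSC_zero hud (by rw [abs_neg, abs_of_pos (by norm_num : (0 : ℝ) < 1 / 4)])]
    simp
  · rw [e1]
    show ((deriv u (1 / 4) * κ : ℝ) : ℂ) * g (s * (1 / 4)) + (s : ℂ) * (((u (1 / 4) * κ : ℝ) : ℂ) * deriv g (s * (1 / 4))) = 0
    rw [OSC_zero hu (by rw [abs_of_pos (by norm_num : (0 : ℝ) < 1 / 4)]),
      OSC_zero hud (by rw [abs_of_pos (by norm_num : (0 : ℝ) < 1 / 4)])]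
    simp
  · intro x hx
    have h1 : HasDerivAt (fun x => r * h (s * x)) (r * (deriv h (s * x) * s)) x := by
      have h2 : HasDerivAt (fun x : ℝ => s * x) s x := by
        simpa using (hasDerivAt_id x).const_mul s
      exact ((hh.differentiable (by simp) (s * x)).hasDerivAt.comp x h2).const_mul r
    rw [h1.deriv]
    have := (hhb (s * x) (hsx x (abs_le.2 hx))).1
    rwa [show r * (deriv h (s * x) * s) = r * s * deriv h (s * x) by ring]
  · intro x hx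
    have h0 : (fun x => r * h (s * x)) = fun x => r * (fun y => h (s * y)) x := rfl
    rw [h0, iteratedDeriv_const_mul_field, iteratedDeriv_comp_const_mul (contDiff_infty.1 hh 2)]
    have h3 := (hhb (s * x) (hsx x (abs_le.2 hx))).2.1
    have h4 : |r * (s ^ 2 * iteratedDeriv 2 h (s * x))| ≤ r * s * |iteratedDeriv 2 h (s * x)| := by
      rw [abs_mul, abs_mul, abs_of_nonneg hr, abs_of_nonneg (by positivity : 0 ≤ s ^ 2)]
      have : s ^ 2 ≤ s := by nlinarith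
      calc r * (s ^ 2 * |iteratedDeriv 2 h (s * x)|) ≤ r * (s * |iteratedDeriv 2 h (s * x)|) := by gcongr
        _ = _ := by ring
    exact h4.trans h3
  · intro x hx
    have h0 : (fun x => r * h (s * x)) = fun x => r * (fun y => h (s * y)) x := rfl
    rw [h0, iteratedDeriv_const_mul_field, iteratedDeriv_comp_const_mul (contDiff_infty.1 hh 3)]
    have h3 := (hhb (s * x) (hsx x (abs_le.2 hx))).2.2
    have h4 : |r * (s ^ 3 * iteratedDeriv 3 h (s * x))| ≤ r * s * |iteratedDeriv 3 h (s * x)| := by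
      rw [abs_mul, abs_mul, abs_of_nonneg hr, abs_of_nonneg (by positivity : 0 ≤ s ^ 3)]
      have : s ^ 3 ≤ s := by
        have : s ^ 2 ≤ 1 := by nlinarith
        nlinarith
      calc r * (s ^ 3 * |iteratedDeriv 3 h (s * x)|) ≤ r * (s * |iteratedDeriv 3 h (s * x)|) := by gcongr
        _ = _ := by ring
    exact h4.trans h3
  · intro x hx
    have := nb (u x) κ (g (s * x)) (hub x).1 hκ (hgb _ (hsx x (abs_le.2 hx))).1
    show ‖((u x * κ : ℝ) : ℂ) * g (s * x)‖ ≤ 4 * (B ^ 2 * M)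
    linarith
  · intro x hx
    obtain ⟨g0, g1, g2⟩ := hgb _ (hsx x (abs_le.2 hx))
    obtain ⟨u0, u1, u2⟩ := hub x
    rw [e1]
    have a1 := nb _ κ _ u1 hκ g0
    have a2 := (ns _).trans (nb _ κ _ u0 hκ g1)
    calc _ ≤ ‖((deriv u x * κ : ℝ) : ℂ) * g (s * x)‖ + ‖(s : ℂ) * (((u x * κ : ℝ) : ℂ) * deriv g (s * x))‖ := norm_add_le _ _
      _ ≤ 4 * (B ^ 2 * M) := by linarith
  · intro x hx
    obtain ⟨g0, g1, g2⟩ := hgb _ (hsx x (abs_le.2 hx))
    obtain ⟨u0, u1, u2⟩ := hub x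
    rw [e2]
    have a1 := nb _ κ _ u2 hκ g0
    have a2 := (ns _).trans (nb _ κ _ u1 hκ g1)
    have a3 := (ns _).trans (nb _ κ _ u0 hκ g2)
    have a4 := nb _ κ _ u1 hκ g1
    show ‖(((deriv (deriv u) x * κ : ℝ) : ℂ) * g (s * x) + (s : ℂ) * (((deriv u x * κ : ℝ) : ℂ) * deriv g (s * x))) +
      (s : ℂ) * (((deriv u x * κ : ℝ) : ℂ) * deriv g (s * x) + (s : ℂ) * (((u x * κ : ℝ) : ℂ) * iteratedDeriv 2 g (s * x)))‖ ≤ 4 * (B ^ 2 * M)
    have b1 := norm_add_le (((deriv (deriv u) x * κ : ℝ) : ℂ) * g (s * x) + (s : ℂ) * (((deriv u x * κ : ℝ) : ℂ) * deriv g (s * x)))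
      ((s : ℂ) * (((deriv u x * κ : ℝ) : ℂ) * deriv g (s * x) + (s : ℂ) * (((u x * κ : ℝ) : ℂ) * iteratedDeriv 2 g (s * x))))
    have b2 := norm_add_le (((deriv (deriv u) x * κ : ℝ) : ℂ) * g (s * x)) ((s : ℂ) * (((deriv u x * κ : ℝ) : ℂ) * deriv g (s * x)))
    have b3 := (ns (((deriv u x * κ : ℝ) : ℂ) * deriv g (s * x) + (s : ℂ) * (((u x * κ : ℝ) : ℂ) * iteratedDeriv 2 g (s * x)))).trans
      (norm_add_le _ _)
    linarith

theorem OSC_im (k : SL(2, ℝ)) (x τ : ℝ) : (k⁻¹ • pt x τ).im = Real.exp τ / Dk k x τ := by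
  have e0 : (k⁻¹ • pt x τ).im = (((k⁻¹ : SL(2, ℝ)) : GL (Fin 2) ℝ) • pt x τ).im := rfl
  rw [e0, UpperHalfPlane.im_smul_eq_div_normSq]
  have h1 : ((pt x τ : ℍ) : ℂ).re = x := rfl
  have h2 : ((pt x τ : ℍ) : ℂ).im = Real.exp τ := rfl
  have h3 : (pt x τ).im = Real.exp τ := rfl
  have i0 : (k⁻¹ : SL(2, ℝ)).1 1 0 = -k.1 1 0 := by
    rw [Matrix.SpecialLinearGroup.SL2_inv_expl]
    rfl
  have i1 : (k⁻¹ : SL(2, ℝ)).1 1 1 = k.1 0 0 := by
    rw [Matrix.SpecialLinearGroup.SL2_inv_expl]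
    rfl
  have e1 : Complex.normSq (denom ((k⁻¹ : SL(2, ℝ)) : GL (Fin 2) ℝ) (pt x τ)) = Dk k x τ := by
    unfold Dk
    rw [show denom ((k⁻¹ : SL(2, ℝ)) : GL (Fin 2) ℝ) (pt x τ) = (((k⁻¹ : SL(2, ℝ)).1 1 0 : ℝ) : ℂ) * ((pt x τ : ℍ) : ℂ) +
      (((k⁻¹ : SL(2, ℝ)).1 1 1 : ℝ) : ℂ) from rfl]
    rw [i0, i1, Complex.normSq_apply]
    simp only [Complex.add_re, Complex.mul_re, Complex.ofReal_re, Complex.ofReal_im, Complex.add_im, Complex.mul_im, h1, h2]
    rw [show 2 * τ = τ + τ by ring, Real.exp_add]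
    ring
  rw [e1, h3]
  simp

theorem OSC_int (F : ℝ → ℂ) (hF : ∀ x, 1 / 4 ≤ |x| → F x = 0) : ∫ x, F x = ∫ x in (-(1 / 4) : ℝ)..(1 / 4), F x := by
  refine (intervalIntegral.integral_eq_integral_of_support_subset ?_).symm
  intro x hx
  by_contra hn
  refine hx (hF x ?_)
  by_contra h
  push Not at h
  obtain ⟨h1, h2⟩ := abs_lt.1 h
  exact hn ⟨h1, h2.le⟩

theorem OSC_out (F : ℝ → ℂ) (hF : ∀ x, 1 / 4 ≤ |x| → F x = 0) (K : ℝ) (hK : ∀ x, |x| ≤ 1 / 4 → ‖F x‖ ≤ K) : ‖∫ x, F x‖ ≤ K / 2 := by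
  rw [OSC_int F hF]
  have h := intervalIntegral.norm_integral_le_of_norm_le_const (a := (-(1 / 4) : ℝ)) (b := 1 / 4) (f := F) (C := K) ?_
  · refine h.trans (le_of_eq ?_)
    rw [show |(1 / 4 : ℝ) - -(1 / 4)| = 1 / 2 by norm_num]
    ring
  · intro x hx
    rw [uIoc_of_le (by norm_num)] at hx
    exact hK x (abs_le.2 ⟨hx.1.le, hx.2⟩)

theorem OSC_exp : Real.exp (1 / 2) < 1.65 := by
  have h1 := Real.exp_one_lt_d9
  have h2 : Real.exp (1 / 2) * Real.exp (1 / 2) = Real.exp 1 := by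
    rw [← Real.exp_add]
    norm_num
  nlinarith [Real.exp_pos (1 / 2)]

theorem OSC_exp' : 0.606 < Real.exp (-(1 / 2)) := by
  have h1 := OSC_exp
  rw [Real.exp_neg]
  have h0 := Real.exp_pos (1 / 2)
  rw [lt_inv_comm₀ (by norm_num) h0]
  refine h1.trans ?_
  norm_num

/-- the amplitude is nonzero: `c` is not small -/
theorem OSC_c {β α : ℝ → ℝ} (hT : TB (1 / 4) (pc β α)) (k : SL(2, ℝ)) (hD : ∀ x τ : ℝ, 0 < Dk k x τ) (x0 : ℝ) (hx0 : |x0| ≤ 1 / 4)
    (h0 : |k.1 0 0 - k.1 1 0 * x0| < 1 / 8) (hc : |k.1 1 0| < 1 / 2) (x τ : ℝ) (hx : |x| ≤ 1 / 4) (hτ : |τ| ≤ 1 / 4) :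
    amk (pc β α) k x τ = 0 := by
  unfold amk
  have hz : pc β α (k⁻¹ • pt x τ) = 0 := by
    by_contra hne
    have h1 := (hT.2 _ hne).2
    rw [OSC_im, Real.log_div (Real.exp_pos τ).ne' (hD x τ).ne', Real.log_exp] at h1
    obtain ⟨h2, h3⟩ := abs_le.1 h1
    obtain ⟨h4, h5⟩ := abs_le.1 hτ
    have h6 : -(1 / 2) ≤ Real.log (Dk k x τ) := by linarith
    have h7 : Real.exp (-(1 / 2)) ≤ Dk k x τ := (Real.le_log_iff_exp_le (hD x τ)).1 h6
    have h8 : |k.1 0 0 - k.1 1 0 * x| ≤ 3 / 8 := by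
      have e : k.1 0 0 - k.1 1 0 * x = (k.1 0 0 - k.1 1 0 * x0) + k.1 1 0 * (x0 - x) := by ring
      rw [e]
      refine (abs_add_le _ _).trans ?_
      rw [abs_mul]
      have h9 : |x0 - x| ≤ 1 / 2 := by
        obtain ⟨a1, a2⟩ := abs_le.1 hx
        obtain ⟨a3, a4⟩ := abs_le.1 hx0
        exact abs_le.2 ⟨by linarith, by linarith⟩
      have h10 : |k.1 1 0| * |x0 - x| ≤ 1 / 2 * (1 / 2) := mul_le_mul hc.le h9 (abs_nonneg _) (by norm_num)
      linarith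
    have h11 : (k.1 0 0 - k.1 1 0 * x) ^ 2 ≤ 9 / 64 := by
      rw [← sq_abs]
      nlinarith [abs_nonneg (k.1 0 0 - k.1 1 0 * x)]
    have h12 : k.1 1 0 ^ 2 ≤ 1 / 4 := by
      rw [← sq_abs]
      nlinarith [abs_nonneg (k.1 1 0)]
    have h13 : Real.exp (2 * τ) ≤ 1.65 := (Real.exp_le_exp.2 (by linarith)).trans OSC_exp.le
    have h14 : Dk k x τ ≤ 9 / 64 + 1 / 4 * 1.65 := by
      unfold Dk
      have : k.1 1 0 ^ 2 * Real.exp (2 * τ) ≤ 1 / 4 * 1.65 := mul_le_mul h12 h13 (Real.exp_pos _).le (by norm_num)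
      linarith
    have := OSC_exp'
    norm_num at h14 this
    linarith
  rw [hz, zero_mul]

theorem OSC_proof (hOI2 : OI2_stmt) (hOV3 : OV3_stmt) (hGKF : GKF_stmt) : OSC_stmt := by
  intro β0 α0 β α hβ0 hα0 hβ hα
  have hT : TB (1 / 4) (pc β α) := CV1_3 (1 / 4) α β hα hβ
  obtain ⟨M, hM, hk⟩ := hOV3 (pc β α) hT
  obtain ⟨B1, hB1, hb1⟩ := OSC_bds hβ0
  obtain ⟨B2, hB2, hb2⟩ := OSC_bds hα0
  obtain ⟨B, hBdef⟩ : ∃ B, B = B1 + B2 := ⟨_, rfl⟩
  have hB : 0 ≤ B := by rw [hBdef]; positivity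
  have hbβ : ∀ x, |β0 x| ≤ B ∧ |deriv β0 x| ≤ B ∧ |deriv (deriv β0) x| ≤ B := fun x =>
    ⟨by linarith [(hb1 x).1], by linarith [(hb1 x).2.1], by linarith [(hb1 x).2.2]⟩
  have hbα : ∀ x, |α0 x| ≤ B ∧ |deriv α0 x| ≤ B ∧ |deriv (deriv α0) x| ≤ B := fun x =>
    ⟨by linarith [(hb2 x).1], by linarith [(hb2 x).2.1], by linarith [(hb2 x).2.2]⟩
  obtain ⟨K, hKdef⟩ : ∃ K, K = B ^ 2 * M + 8 * B ^ 2 * M * (1 + 240 * M) ^ 2 * 240 ^ 2 * 9 := ⟨_, rfl⟩
  have hK1 : 0 ≤ 8 * B ^ 2 * M * (1 + 240 * M) ^ 2 * 240 ^ 2 := by positivity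
  have hK0 : 0 ≤ K := by rw [hKdef]; positivity
  refine ⟨4 * K + 1, by positivity, fun T r k hT0 hr => ?_⟩
  obtain ⟨hent, hform⟩ := hGKF β0 α0 β α T r k hβ0 hα0 hβ hα hT0 hr
  by_cases h0 : gk r (pc (st (-T) β0) α0) (pc β α) k = 0
  · rw [h0, norm_zero]
    positivity
  have hE := hent h0
  obtain ⟨hD, hcx, hct, hbox⟩ := hk k hE
  obtain ⟨ε, hε⟩ : ∃ ε, ε = Real.exp (-T) := ⟨_, rfl⟩
  have hε0 : 0 < ε := by rw [hε]; exact Real.exp_pos _
  have hε1 : ε ≤ 1 := by rw [hε]; exact Real.exp_le_one_iff.2 (by linarith)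
  rw [← hε] at hform
  obtain ⟨c, hc⟩ : ∃ c, c = k.1 1 0 := ⟨_, rfl⟩
  obtain ⟨lam, hlam⟩ : ∃ lam, lam = ε * r * |c| := ⟨_, rfl⟩
  have hlam0 : 0 ≤ lam := by rw [hlam]; positivity
  obtain ⟨G, hG⟩ : ∃ G : ℝ → ℝ → ℂ, G = fun x τ => ((β0 x * α0 τ : ℝ) : ℂ) * amk (pc β α) k (ε * x) τ *
    Complex.exp (((r * Real.log (Dk k (ε * x) τ) : ℝ) : ℂ) * Complex.I) := ⟨_, rfl⟩
  have hform' : gk r (pc (st (-T) β0) α0) (pc β α) k = ((Real.exp (-(T / 2)) : ℝ) : ℂ) * ∫ τ : ℝ, ∫ x : ℝ, G x τ := by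
    rw [hform, hG]
  have hεx : ∀ x : ℝ, |x| ≤ 1 / 4 → |ε * x| ≤ 1 / 4 := by
    intro x hx
    rw [abs_mul, abs_of_pos hε0]
    calc ε * |x| ≤ 1 * |x| := mul_le_mul_of_nonneg_right hε1 (abs_nonneg _)
      _ ≤ 1 / 4 := by linarith
  have hGx : ∀ τ x, 1 / 4 ≤ |x| → G x τ = 0 := by
    intro τ x hx
    rw [hG]
    simp only
    rw [OSC_zero hβ0 hx]
    simp
  have hGτ : ∀ x τ, 1 / 4 ≤ |τ| → G x τ = 0 := by
    intro x τ hτ
    rw [hG]
    simp only
    rw [OSC_zero hα0 hτ]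
    simp
  have hGb : ∀ x τ, |x| ≤ 1 / 4 → |τ| ≤ 1 / 4 → ‖G x τ‖ ≤ B ^ 2 * M := by
    intro x τ hx hτ
    rw [hG]
    simp only
    rw [norm_mul, Complex.norm_exp_ofReal_mul_I, mul_one, norm_mul, Complex.norm_real, Real.norm_eq_abs, abs_mul]
    have h1 := (hbox (ε * x) τ (hεx x hx) hτ).2.2.1
    calc |β0 x| * |α0 τ| * ‖amk (pc β α) k (ε * x) τ‖ ≤ B * B * M := by
          gcongr
          · exact (hbβ x).1
          · exact (hbα τ).1
      _ = B ^ 2 * M := by ring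
  have hinner : ∀ τ, 1 / 4 ≤ |τ| → ∫ x, G x τ = 0 := by
    intro τ hτ
    have : (fun x => G x τ) = fun _ => 0 := funext fun x => hGτ x τ hτ
    rw [this, integral_zero]
  have hinner' : ∀ x, 1 / 4 ≤ |x| → ∫ τ, G x τ = 0 := by
    intro x hx
    have : (fun τ => G x τ) = fun _ => 0 := funext fun τ => hGx τ x hx
    rw [this, integral_zero]
  -- the trivial bound
  have hJ0 : ‖∫ τ : ℝ, ∫ x : ℝ, G x τ‖ ≤ B ^ 2 * M := by
    have hBM : 0 ≤ B ^ 2 * M := by positivity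
    have := OSC_out (fun τ => ∫ x : ℝ, G x τ) hinner (B ^ 2 * M / 2) (fun τ hτ => OSC_out (fun x => G x τ) (hGx τ) _ (fun x hx => hGb x τ hx hτ))
    refine this.trans ?_
    linarith
  -- the bound for large `lam`
  have hJ1 : 1 < lam → ‖∫ τ : ℝ, ∫ x : ℝ, G x τ‖ ≤ K / lam ^ 2 := by
    intro hl
    have hl0 : 0 < lam := by linarith
    by_cases hA : ∀ x : ℝ, |x| ≤ 1 / 4 → 1 / 8 ≤ |k.1 0 0 - c * x|
    · have hin : ∀ τ, |τ| ≤ 1 / 4 → ‖∫ x : ℝ, G x τ‖ ≤ 8 * B ^ 2 * M * (1 + 240 * M) ^ 2 / (lam / 240) ^ 2 := by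
        intro τ hτ
        rw [OSC_int _ (hGx τ), hG]
        refine OSC_W hOI2 hβ0 hB hbβ (hbα τ).1 hε0.le hε1 (by linarith) (g := fun y => amk (pc β α) k y τ) (hcx τ).1
          (h := fun y => Real.log (Dk k y τ)) (hcx τ).2 hM.le ?_ (by positivity) (by positivity) ?_
        · intro y hy
          obtain ⟨-, -, b3, b4, -, -, -⟩ := hbox y τ hy hτ
          refine ⟨b3, ?_, (b4 2 (by norm_num) (by norm_num)).1⟩
          have := (b4 1 (by norm_num) (by norm_num)).1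
          rwa [iteratedDeriv_one] at this
        · intro y hy
          obtain ⟨b1, b2, -, -, b5, b6, -⟩ := hbox y τ hy hτ
          rw [← hc] at b5 b6
          refine ⟨?_, ?_, ?_⟩
          · rw [b6]
            have e : r * ε * (-2 * c * (k.1 0 0 - c * y) / Dk k y τ) = -(2 * (ε * r) * c * (k.1 0 0 - c * y) / Dk k y τ) := by ring
            rw [e, abs_neg, abs_div, abs_mul, abs_mul, abs_of_pos (hD y τ), abs_of_pos (by positivity : 0 < 2 * (ε * r)),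
              le_div_iff₀ (hD y τ), hlam]
            have h1 := hA y hy
            calc ε * r * |c| / 240 * Dk k y τ ≤ ε * r * |c| / 240 * 60 := by gcongr
              _ = 2 * (ε * r) * |c| * (1 / 8) := by ring
              _ ≤ 2 * (ε * r) * |c| * |k.1 0 0 - c * y| := by gcongr
          · have := (b5 2 (by norm_num) (by norm_num)).1
            calc r * ε * |iteratedDeriv 2 (fun y => Real.log (Dk k y τ)) y| ≤ r * ε * (M * |c|) := by gcongr
              _ = 240 * M * (lam / 240) := by rw [hlam]; ring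
          · have := (b5 3 (by norm_num) (by norm_num)).1
            calc r * ε * |iteratedDeriv 3 (fun y => Real.log (Dk k y τ)) y| ≤ r * ε * (M * |c|) := by gcongr
              _ = 240 * M * (lam / 240) := by rw [hlam]; ring
      have := OSC_out (fun τ => ∫ x : ℝ, G x τ) hinner _ hin
      refine this.trans ?_
      have e : 8 * B ^ 2 * M * (1 + 240 * M) ^ 2 / (lam / 240) ^ 2 / 2 = 8 * B ^ 2 * M * (1 + 240 * M) ^ 2 * 240 ^ 2 / 2 / lam ^ 2 := by
        field_simp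
      rw [e]
      gcongr
      rw [hKdef]
      have : 0 ≤ B ^ 2 * M := by positivity
      linarith
    · push Not at hA
      obtain ⟨x0, hx0, hx0'⟩ := hA
      have hcb : 1 / 2 ≤ |c| := by
        by_contra hlt
        push Not at hlt
        refine h0 ?_
        have hz : ∀ τ x, G x τ = 0 := by
          intro τ x
          by_cases hx : 1 / 4 ≤ |x|
          · exact hGx τ x hx
          by_cases hτ : 1 / 4 ≤ |τ|
          · exact hGτ x τ hτ
          rw [hG]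
          simp only
          rw [hc] at hx0' hlt
          rw [OSC_c hT k hD x0 hx0 hx0' hlt (ε * x) τ (hεx x (by linarith)) (by linarith)]
          simp
        rw [hform']
        simp [hz]
      have hcont : Continuous (Function.uncurry fun τ x => G x τ) := by
        rw [hG]
        have hDc : Continuous fun p : ℝ × ℝ => Dk k (ε * p.2) p.1 := by
          unfold Dk
          fun_prop
        have h1 : Continuous fun p : ℝ × ℝ => amk (pc β α) k (ε * p.2) p.1 := by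
          unfold amk
          refine Continuous.mul ?_ ?_
          · refine (CV1_cont (1 / 4) _ hT).comp ?_
            refine (continuous_const_smul _).comp ?_
            exact CV1_ptcont.comp (Continuous.prodMk (by fun_prop) (by fun_prop))
          · refine Complex.continuous_ofReal.comp ?_
            exact hDc.rpow_const fun p => Or.inl (hD _ _).ne'
        have h2 : Continuous fun p : ℝ × ℝ => Real.log (Dk k (ε * p.2) p.1) := hDc.log fun p => (hD _ _).ne'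
        have h3 := hβ0.1.continuous
        have h4 := hα0.1.continuous
        show Continuous fun p : ℝ × ℝ => ((β0 p.2 * α0 p.1 : ℝ) : ℂ) * amk (pc β α) k (ε * p.2) p.1 *
          Complex.exp (((r * Real.log (Dk k (ε * p.2) p.1) : ℝ) : ℂ) * Complex.I)
        fun_prop
      have hsupp : HasCompactSupport (Function.uncurry fun τ x => G x τ) := by
        refine HasCompactSupport.intro ((isCompact_Icc (a := (-(1 / 4) : ℝ)) (b := 1 / 4)).prod (isCompact_Icc (a := (-(1 / 4) : ℝ)) (b := 1 / 4))) ?_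
        rintro ⟨τ, x⟩ hp
        show G x τ = 0
        by_cases hx : 1 / 4 ≤ |x|
        · exact hGx τ x hx
        by_cases hτ : 1 / 4 ≤ |τ|
        · exact hGτ x τ hτ
        refine absurd ?_ hp
        exact ⟨abs_le.1 (by linarith), abs_le.1 (by linarith)⟩
      have hswap : ∫ τ : ℝ, ∫ x : ℝ, G x τ = ∫ x : ℝ, ∫ τ : ℝ, G x τ :=
        integral_integral_swap (hcont.integrable_of_hasCompactSupport hsupp)
      rw [hswap]
      have hin : ∀ x, |x| ≤ 1 / 4 → ‖∫ τ : ℝ, G x τ‖ ≤ 8 * B ^ 2 * M * (1 + 200 * M) ^ 2 / (r / 200) ^ 2 := by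
        intro x hx
        rw [OSC_int _ (hGτ x), hG]
        have hW := OSC_W hOI2 hα0 hB hbα (hbβ x).1 zero_le_one le_rfl (by linarith : 0 ≤ r) (g := fun τ => amk (pc β α) k (ε * x) τ) (hct _).1
          (h := fun τ => Real.log (Dk k (ε * x) τ)) (hct _).2 hM.le (m := r / 200) (L := 200 * M) ?_ (by positivity) (by positivity) ?_
        · refine le_trans (le_of_eq ?_) hW
          congr 1
          refine intervalIntegral.integral_congr fun τ _ => ?_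
          simp only [one_mul]
          rw [mul_comm (β0 x) (α0 τ)]
        · intro y hy
          obtain ⟨-, -, b3, b4, -, -, -⟩ := hbox (ε * x) y (hεx x hx) hy
          refine ⟨b3, ?_, (b4 2 (by norm_num) (by norm_num)).2⟩
          have := (b4 1 (by norm_num) (by norm_num)).2
          rwa [iteratedDeriv_one] at this
        · intro y hy
          obtain ⟨b1, b2, -, -, b5, -, b7⟩ := hbox (ε * x) y (hεx x hx) hy
          rw [← hc] at b7
          refine ⟨?_, ?_, ?_⟩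
          · rw [b7, mul_one, abs_of_nonneg (by have := hD (ε * x) y; positivity), ← mul_div_assoc, le_div_iff₀ (hD _ _)]
            have h1 : 1 / 4 ≤ c ^ 2 := by
              rw [← sq_abs]
              nlinarith
            have h2 : 0.606 ≤ Real.exp (2 * y) := by
              refine OSC_exp'.le.trans (Real.exp_le_exp.2 ?_)
              obtain ⟨h4, h5⟩ := abs_le.1 hy
              linarith
            have h3 : 1 / 4 * 0.606 ≤ c ^ 2 * Real.exp (2 * y) := mul_le_mul h1 h2 (by norm_num) (by positivity)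
            have h4 : r / 200 * Dk k (ε * x) y ≤ r / 200 * 60 := by gcongr
            norm_num at h3
            nlinarith
          · have := (b5 2 (by norm_num) (by norm_num)).2
            calc r * 1 * |iteratedDeriv 2 (fun τ => Real.log (Dk k (ε * x) τ)) y| ≤ r * 1 * M := by gcongr
              _ = 200 * M * (r / 200) := by ring
          · have := (b5 3 (by norm_num) (by norm_num)).2
            calc r * 1 * |iteratedDeriv 3 (fun τ => Real.log (Dk k (ε * x) τ)) y| ≤ r * 1 * M := by gcongr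
              _ = 200 * M * (r / 200) := by ring
      have := OSC_out (fun x => ∫ τ : ℝ, G x τ) hinner' _ hin
      refine this.trans ?_
      have hr0 : 0 < r := by linarith
      have hlr : lam ≤ 3 * r := by
        rw [hlam, hc]
        have h3 := hE 1 0
        calc ε * r * |k.1 1 0| ≤ 1 * r * 3 := by gcongr
          _ = 3 * r := by ring
      have e : 8 * B ^ 2 * M * (1 + 200 * M) ^ 2 / (r / 200) ^ 2 / 2 = 8 * B ^ 2 * M * (1 + 200 * M) ^ 2 * 200 ^ 2 / 2 / r ^ 2 := by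
        field_simp
      rw [e, div_le_div_iff₀ (by positivity) (by positivity)]
      have h9 : lam ^ 2 ≤ 9 * r ^ 2 := by nlinarith
      have hK2 : 8 * B ^ 2 * M * (1 + 200 * M) ^ 2 * 200 ^ 2 / 2 ≤ 8 * B ^ 2 * M * (1 + 240 * M) ^ 2 * 240 ^ 2 := by
        have h10 : 8 * B ^ 2 * M * (1 + 200 * M) ^ 2 * 200 ^ 2 ≤ 8 * B ^ 2 * M * (1 + 240 * M) ^ 2 * 240 ^ 2 := by gcongr <;> norm_num
        have h11 : 0 ≤ 8 * B ^ 2 * M * (1 + 200 * M) ^ 2 * 200 ^ 2 := by positivity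
        linarith
      calc 8 * B ^ 2 * M * (1 + 200 * M) ^ 2 * 200 ^ 2 / 2 * lam ^ 2 ≤
            8 * B ^ 2 * M * (1 + 240 * M) ^ 2 * 240 ^ 2 * (9 * r ^ 2) := by gcongr
        _ = 8 * B ^ 2 * M * (1 + 240 * M) ^ 2 * 240 ^ 2 * 9 * r ^ 2 := by ring
        _ ≤ K * r ^ 2 := by
          gcongr
          rw [hKdef]
          have : 0 ≤ B ^ 2 * M := by positivity
          linarith
  -- conclusion
  have hJ : ‖∫ τ : ℝ, ∫ x : ℝ, G x τ‖ ≤ (4 * K + 1) / (1 + lam) ^ 2 := by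
    rw [le_div_iff₀ (by positivity)]
    by_cases hl : 1 < lam
    · have h1 := hJ1 hl
      rw [le_div_iff₀ (by positivity)] at h1
      have h2 : (1 + lam) ^ 2 ≤ 4 * lam ^ 2 := by nlinarith
      calc ‖∫ τ : ℝ, ∫ x : ℝ, G x τ‖ * (1 + lam) ^ 2 ≤ ‖∫ τ : ℝ, ∫ x : ℝ, G x τ‖ * (4 * lam ^ 2) := by gcongr
        _ = 4 * (‖∫ τ : ℝ, ∫ x : ℝ, G x τ‖ * lam ^ 2) := by ring
        _ ≤ 4 * K := by linarith
        _ ≤ 4 * K + 1 := by linarith
    · push Not at hl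
      have h2 : (1 + lam) ^ 2 ≤ 4 := by nlinarith
      have h3 : B ^ 2 * M ≤ K := by rw [hKdef]; linarith
      calc ‖∫ τ : ℝ, ∫ x : ℝ, G x τ‖ * (1 + lam) ^ 2 ≤ K * 4 := by
            gcongr
            exact hJ0.trans h3
        _ ≤ 4 * K + 1 := by linarith
  rw [hform', norm_mul, Complex.norm_real, Real.norm_eq_abs, abs_of_pos (Real.exp_pos _), ← hε, ← hc, ← hlam]
  calc Real.exp (-(T / 2)) * ‖∫ τ : ℝ, ∫ x : ℝ, G x τ‖ ≤ Real.exp (-(T / 2)) * ((4 * K + 1) / (1 + lam) ^ 2) := by gcongr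
    _ = (4 * K + 1) * Real.exp (-(T / 2)) / (1 + lam) ^ 2 := by ring

end Pool.Agent.MS
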