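import Pool.Agent.helper57.MS.Spec

set_option autoImplicit false

open Finset

namespace Pool.Agent.helper57.MS

open Pool.Agent.RRank Pool.Agent.helper26.IM

theorem HUL_sg (𝓅 : Ultrafilter ℕ) (K : ℕ → Type) [∀ n, Field (K n)] (d l : ℕ)
    (A : Finset (Fin d)) (σ : Fin d → Equiv.Perm (Fin l)) :
    sg (UF 𝓅 K) A σ = UF.mk 𝓅 (fun n => sg (K n) A σ) := by
  have h1 : (fun n => sg (K n) A σ) =
      ∏ α ∈ A, (((Equiv.Perm.sign (σ α) : ℤ) : (n : ℕ) → K n)) := by
    funext n
    rw [Finset.prod_apply]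
    rfl
  rw [h1, map_prod]
  unfold sg
  refine Finset.prod_congr rfl fun α _ => ?_
  rw [map_intCast]

theorem HUL : HUL_stmt := by
  intro 𝓅 K _ d l Q T
  refine ⟨?_, ?_⟩
  · intro A hA
    funext x
    have h1 : H l A (fun x : (α : Fin d) → (n : ℕ) → Q n α => UF.mk 𝓅 (fun n => T n (fun α => x α n))) x
        = UF.mk 𝓅 (fun n => H l A (T n) (fun w => x w n)) := by
      have h2 : (fun n => H l A (T n) (fun w => x w n)) =
          ∑ σ : Fin d → Equiv.Perm (Fin l), (fun n => sg (K n) A σ) *
            ∏ i : Fin l, (fun n => T n (fun α => x (α, σ α i) n)) := by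
        funext n
        unfold H
        rw [Finset.sum_apply, Finset.sum_apply]
        refine Finset.sum_congr rfl fun σ _ => ?_
        rw [Pi.smul_apply, Finset.prod_apply, Pi.mul_apply, Finset.prod_apply, smul_eq_mul]
        rfl
      rw [h2, map_sum]
      unfold H
      rw [Finset.sum_apply]
      refine Finset.sum_congr rfl fun σ _ => ?_
      rw [Pi.smul_apply, Finset.prod_apply, map_mul, map_prod, smul_eq_mul, HUL_sg]
      rfl
    rw [h1]
    have h3 : (fun n => H l A (T n) (fun w => x w n)) = (0 : (n : ℕ) → K n) := by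
      funext n
      rw [hA n]
      rfl
    rw [h3, map_zero]
    rfl
  · intro hl h0
    have h1 : (l.factorial : UF 𝓅 K) = UF.mk 𝓅 ((l.factorial : (n : ℕ) → K n)) := by
      rw [map_natCast]
    rw [h1, UF.mk_eq_zero] at h0
    obtain ⟨n, hn⟩ := h0.exists
    exact hl n hn

end Pool.Agent.helper57.MS
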